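import Pool.Agent.P8H83.Ends
import Pool.Agent.P8H83.Abn
import Pool.Agent.N520.RO.Plane
import Pool.Agent.Y449.MS.All

set_option autoImplicit false

open Pool.Agent.W689.Mk

namespace Pool.Agent.Results.MP_df2bd8_gt.OneEnded

/-- If `Q` is a compact subset of `Ω`, every connected component of the complement of `Q` which
contains a point outside `Ω` is unbounded (every bounded component of the complement of `Q` lies
in `Ω`). -/
def NoBoundedHoles {E : Type} [NormedAddCommGroup E] (Ω : Set E) : Prop :=
  ∀ Q : Set E, IsCompact Q → Q ⊆ Ω → ∀ x : E, x ∉ Ω →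
    ¬ Bornology.IsBounded (connectedComponentIn Qᶜ x)

/-- The group has one end: it is infinite, and every almost invariant subset is finite or has a
finite complement. -/
def HasOneEnd (Γ : Type) [Group Γ] : Prop :=
  Infinite Γ ∧ ∀ A : Set Γ, (∀ g : Γ, {a | a ∈ A ∧ a * g ∉ A}.Finite) → A.Finite ∨ Aᶜ.Finite

/-- Every solvable normal subgroup of every subgroup of finite index is finite. -/
def FiniteSolvableNormal (Γ : Type) [Group Γ] : Prop :=
  ∀ H : Subgroup Γ, H.FiniteIndex → ∀ N : Subgroup H, N.Normal → Group.IsSolvable N → Finite N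

/-- The linear holonomy is strongly irreducible: a subspace that is preserved by the linear
holonomy of some subgroup `H` of finite index is `0` or `E`. -/
def StronglyIrreducible {Γ E : Type} [Group Γ] [NormedAddCommGroup E] [NormedSpace ℝ E]
    (hol : Γ →* (E ≃ᵃ[ℝ] E)) : Prop :=
  ∀ H : Subgroup Γ, H.FiniteIndex → ∀ W : Submodule ℝ E,
    (∀ γ ∈ H, ∀ v ∈ W, (hol γ).linear v ∈ W) → W = ⊥ ∨ W = ⊤

/-- Let `M = Γ \ Ω` be a closed affine manifold (or orbifold) of dimension `n ≥ 2` with parallel
volume which is a quotient of a connected open subset `Ω` of the affine space: it is given by a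
connected cover `X` with its group `Γ`, holonomy `hol`, and injective developing map `dev`, with
image `Ω`.

Then the complement of `Ω` has no bounded pieces, `Γ` has one end, and if the linear holonomy
is strongly irreducible then the solvable normal subgroups of subgroups of finite index of `Γ` are
finite. If `n = 3` and some subgroup of finite index of `Γ` has an infinite solvable normal
subgroup, then `M` is complete. -/
theorem result (X Γ E : Type) [NormedAddCommGroup E] [NormedSpace ℝ E] [FiniteDimensional ℝ E]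
    [TopologicalSpace X] [T2Space X] [SecondCountableTopology X] [ConnectedSpace X] [Group Γ]
    [MulAction Γ X] (dev : X → E) (hol : Γ →* (E ≃ᵃ[ℝ] E)) (D : AffData X Γ E dev hol)
    (hinj : Function.Injective dev) (h2 : 2 ≤ Module.finrank ℝ E) :
    NoBoundedHoles (Set.range dev) ∧ HasOneEnd Γ ∧
      (StronglyIrreducible hol → FiniteSolvableNormal Γ) ∧
      (Module.finrank ℝ E = 3 → ¬ FiniteSolvableNormal Γ → IsHomeomorph dev) := by
  have hrank : 1 < Module.rank ℝ E := by
    rw [← Module.finrank_eq_rank]
    exact_mod_cast h2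
  have hnt : Nontrivial E := Module.nontrivial_of_finrank_pos (R := ℝ) (by omega)
  have hdom := Pool.Agent.P8H83.AffData.dom D hinj
  have hne : (Set.range dev).Nonempty := Set.range_nonempty dev
  have hsolv : StronglyIrreducible hol → FiniteSolvableNormal Γ := by
    intro hirr H hH N hN hs
    exact Pool.Agent.P8H83.normal_finite (Pool.Agent.Y449.MK.restrict D H hH) hinj h2
      (Pool.Agent.P8H83.SIrr.sub (hol := hol) hirr H hH) N hN hs
  refine ⟨?_, ⟨hdom.infinite hne, fun A hA => hdom.ends hrank hne hA⟩, hsolv, ?_⟩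
  · intro Q hQ hQΩ x hx hbd
    obtain ⟨U, hU1, hU2, hU3, hU4, R, hU5⟩ := Pool.Agent.P8H83.exists_outer (E := E) hrank hQ
    have h3 := hdom.fill hrank hQ hQΩ hU1 hU2 hU4 ⟨R, hU5⟩
    have hxU : x ∈ U := by
      by_contra h
      exact hx (h3 h)
    have h4 : U ⊆ connectedComponentIn Qᶜ x :=
      hU2.subset_connectedComponentIn hxU (Set.subset_compl_iff_disjoint_right.2 hU3)
    obtain ⟨R', hR'⟩ := hbd.subset_closedBall 0
    obtain ⟨y, hy⟩ := NormedSpace.exists_lt_norm ℝ E (max R R')
    have h5 : y ∈ (Metric.closedBall (0 : E) R)ᶜ := by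
      rw [Set.mem_compl_iff, mem_closedBall_zero_iff, not_le]
      exact (le_max_left _ _).trans_lt hy
    have h6 := hR' (h4 (hU5 h5))
    rw [mem_closedBall_zero_iff] at h6
    exact absurd ((le_max_right R R').trans_lt hy) (not_lt.2 h6)
  · intro h3 hnot
    by_cases hirr : Pool.Agent.P8H83.SIrr (Pool.Agent.P8H83.lh hol)
    · exact absurd (hsolv fun H hH W hW => hirr H hH W hW) hnot
    · rcases Pool.Agent.P8H83.out_red D hinj h3 hirr with ⟨H, hH, W, hW2, hW⟩ | ⟨H, hH, hs⟩
      · exact Pool.Agent.N520.RO.plane_case X Γ E dev hol D hinj H hH W hW2 hW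
      · exact Pool.Agent.Y449.MS.Wrap.main Pool.Agent.Y449.MS.All.finv X Γ E dev hol D hinj H hH hs

end Pool.Agent.Results.MP_df2bd8_gt.OneEnded
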