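import Pool.Agent.P8H83.Form

set_option autoImplicit false

open Pool.Agent.W689.Mk

namespace Pool.Agent.Results.MP_df2bd8_gt.StrongIrreducibility

section
variable {Γ E : Type} [Group Γ] [NormedAddCommGroup E] [NormedSpace ℝ E]

/-- The linear holonomy is strongly irreducible: a subspace that is preserved by the linear
holonomy of some subgroup `H` of finite index is `0` or `E`. -/
def StronglyIrreducible (hol : Γ →* (E ≃ᵃ[ℝ] E)) : Prop :=
  ∀ H : Subgroup Γ, H.FiniteIndex → ∀ W : Submodule ℝ E,
    (∀ γ ∈ H, ∀ v ∈ W, (hol γ).linear v ∈ W) → W = ⊥ ∨ W = ⊤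

/-- The linear holonomy is faithful on the holonomy group and discrete: for some `ε > 0`, an element
whose linear part is at distance at most `ε` from the identity has trivial holonomy. -/
def FaithfulDiscrete (hol : Γ →* (E ≃ᵃ[ℝ] E)) : Prop :=
  ∃ ε : ℝ, 0 < ε ∧ ∀ γ : Γ, (∀ v : E, ‖(hol γ).linear v - v‖ ≤ ε * ‖v‖) → hol γ = 1

/-- a nonempty open convex cone without whole lines -/
structure IsProperlyConvexCone (C : Set E) : Prop where
  isOpen : IsOpen C
  convex : Convex ℝ C
  nonempty : C.Nonempty
  cone : ∀ t : ℝ, 0 < t → ∀ c ∈ C, t • c ∈ C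
  no_line : ∀ c v : E, (∀ t : ℝ, c + t • v ∈ C) → v = 0

/-- The linear holonomy of no subgroup of finite index preserves a properly convex open cone. -/
def NoProperlyConvexCone (hol : Γ →* (E ≃ᵃ[ℝ] E)) : Prop :=
  ∀ H : Subgroup Γ, H.FiniteIndex → ∀ C : Set E, IsProperlyConvexCone C →
    ¬ ∀ γ ∈ H, ∀ c ∈ C, (hol γ).linear c ∈ C

end

/-- Let `M = Γ \ Ω` be a closed affine manifold (or orbifold) of dimension at least two with
parallel volume which is a quotient of an open subset `Ω` of the affine space: it is given by a
cover `X` with its group `Γ`, holonomy `hol`, and injective developing map `dev`, with image `Ω`.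

If the linear holonomy is strongly irreducible, then it is faithful and discrete, and no subgroup
of finite index preserves a properly convex open cone. So there is no such `M` with strongly
irreducible linear holonomy that is not discrete, or not faithful, or preserves virtually a
properly convex cone. -/
theorem result (X Γ E : Type) [NormedAddCommGroup E] [NormedSpace ℝ E] [FiniteDimensional ℝ E]
    [TopologicalSpace X] [T2Space X] [SecondCountableTopology X] [Nonempty X] [Group Γ]
    [MulAction Γ X] (dev : X → E) (hol : Γ →* (E ≃ᵃ[ℝ] E)) (D : AffData X Γ E dev hol)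
    (hinj : Function.Injective dev) (h2 : 2 ≤ Module.finrank ℝ E)
    (hirr : StronglyIrreducible hol) : FaithfulDiscrete hol ∧ NoProperlyConvexCone hol := by
  have hirr' : Pool.Agent.P8H83.SIrr (Pool.Agent.P8H83.lh hol) := fun H hH W hW => hirr H hH W hW
  refine ⟨?_, ?_⟩
  · obtain ⟨ε, hε, h⟩ := Pool.Agent.P8H83.disc_irr D hinj h2 hirr'
    refine ⟨ε / 2, by positivity, fun γ hγ => h γ ?_⟩
    refine lt_of_le_of_lt (ContinuousLinearMap.opNorm_le_bound _ (by positivity) hγ) ?_
    linarith
  · intro H hH C hC hinv
    exact Pool.Agent.P8H83.no_cone (Pool.Agent.Y449.MK.restrict D H hH) hinj h2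
      (hirr'.sub H hH) hC.isOpen hC.convex hC.nonempty hC.cone hC.no_line
      fun γ c hc => hinv γ γ.2 c hc

end Pool.Agent.Results.MP_df2bd8_gt.StrongIrreducibility
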