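import Pool.Agent.P8H83.TowerT

set_option autoImplicit false

open Pool.Agent.W689.Mk Set

namespace Pool.Agent.Results.MP_df2bd8_gt.TranslationQuotient

/-- The span of the vectors of the translations in the holonomy. -/
def translationSpan {Γ E : Type} [Group Γ] [NormedAddCommGroup E] [NormedSpace ℝ E]
    (hol : Γ →* (E ≃ᵃ[ℝ] E)) : Submodule ℝ E :=
  Submodule.span ℝ {v | ∃ γ, ∀ p, hol γ p = p + v}

section
variable {Q : Type} [NormedAddCommGroup Q] [NormedSpace ℝ Q]

/-- The group `G` of affine maps preserves the open set `U`, and `G \ U` is a closed affine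
manifold (or orbifold) with parallel volume, with holonomy group `G` and developing map the
inclusion of `U`. -/
def IsClosedQuotient (U : Set Q) (G : Subgroup (Q ≃ᵃ[ℝ] Q)) : Prop :=
  ∃ _ : MulAction G U, AffData U G Q Subtype.val G.subtype

/-- `G` contains no translation but the identity. -/
def NoTranslations (G : Subgroup (Q ≃ᵃ[ℝ] Q)) : Prop :=
  ∀ g ∈ G, g.linear = LinearEquiv.refl ℝ Q → g = 1

/-- The linear parts of the elements of no subgroup of finite index of `G` preserve a subspace
other than `0` and `Q`. -/
def StronglyIrreducible (G : Subgroup (Q ≃ᵃ[ℝ] Q)) : Prop :=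
  ∀ H : Subgroup G, H.FiniteIndex → ∀ W : Submodule ℝ Q,
    (∀ g ∈ H, ∀ v ∈ W, (g : Q ≃ᵃ[ℝ] Q).linear v ∈ W) → W = ⊥ ∨ W = ⊤

end

/-- Let `M = Γ \ Ω` be a closed affine manifold (or orbifold) with parallel volume which is a
quotient of a connected open subset `Ω` of the affine space: it is given by a connected cover `X`
with its group `Γ`, holonomy `hol`, and injective developing map `dev`, with image `Ω`.

Then there is a linear surjection `π : E → Q` such that `Ω = π ⁻¹ (U)` with `U = π(Ω)`, the
holonomy descends to a homomorphism `ρ` to the affine group of `Q`, `ρ(Γ) \ U` is again a closed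
affine orbifold with parallel volume, and `ρ(Γ)` contains no translations; all translations of
the holonomy of `M` are in the directions of the kernel of `π`. The structure of `M` is complete
if and only if the one of `ρ(Γ) \ U` is, and this is the case if the dimension of `Q` is at most
two; if the dimension of `Q` is three, `M` is complete or `ρ(Γ)` has strongly irreducible linear
part. In particular `M` is complete if the translations of its holonomy span a subspace of
codimension at most two. -/
theorem result (X Γ E : Type) [NormedAddCommGroup E] [NormedSpace ℝ E] [FiniteDimensional ℝ E]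
    [TopologicalSpace X] [T2Space X] [SecondCountableTopology X] [ConnectedSpace X] [Group Γ]
    [MulAction Γ X] (dev : X → E) (hol : Γ →* (E ≃ᵃ[ℝ] E)) (D : AffData X Γ E dev hol)
    (hinj : Function.Injective dev) :
    ∃ (Q : Type) (_ : NormedAddCommGroup Q) (_ : NormedSpace ℝ Q) (_ : FiniteDimensional ℝ Q)
      (π : E →L[ℝ] Q) (ρ : Γ →* (Q ≃ᵃ[ℝ] Q)) (U : Set Q),
      Function.Surjective π ∧ (∀ γ p, π (hol γ p) = ρ γ (π p)) ∧
      U = π '' range dev ∧ range dev = π ⁻¹' U ∧
      IsClosedQuotient U ρ.range ∧ NoTranslations ρ.range ∧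
      (∀ v ∈ translationSpan hol, π v = 0) ∧
      (IsHomeomorph dev ↔ U = univ) ∧
      (Module.finrank ℝ Q ≤ 2 → IsHomeomorph dev) ∧
      (Module.finrank ℝ Q = 3 → IsHomeomorph dev ∨ StronglyIrreducible ρ.range) ∧
      (Module.finrank ℝ E ≤ Module.finrank ℝ (translationSpan hol) + 2 → IsHomeomorph dev) := by
  obtain ⟨Q, i1, i2, i3, π, ρ, G, U, a1, a2, a3, a4, a5, ⟨act, D'⟩, a7⟩ :=
    Pool.Agent.P8H83.quo_all _ X Γ E dev hol D hinj le_rfl
  subst a3
  have hiff := Pool.Agent.P8H83.homeo_iff D hinj a1 a4 a5
  have hconn : ConnectedSpace U := by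
    have h1 : IsConnected U := by
      rw [a4]
      exact (isConnected_range D.loc.continuous).image _ π.continuous.continuousOn
    exact isConnected_iff_connectedSpace.1 h1
  have hup : IsHomeomorph (Subtype.val : U → Q) → IsHomeomorph dev := by
    intro h
    rw [hiff, ← Subtype.range_coe (s := U), h.surjective.range_eq]
  have hker : ∀ v ∈ translationSpan hol, π v = 0 := by
    have h1 : translationSpan hol ≤ LinearMap.ker (π : E →ₗ[ℝ] Q) := by
      unfold translationSpan
      rw [Submodule.span_le]
      rintro v ⟨γ, hγ⟩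
      show π v = 0
      have h2 : ∀ q, ρ γ q = q + π v := by
        intro q
        obtain ⟨p, rfl⟩ := a1 q
        rw [← a2, hγ, map_add]
      have h3 : ρ γ = 1 := by
        refine a7 _ ⟨γ, rfl⟩ (LinearEquiv.ext fun q => ?_)
        have h4 : (ρ γ).linear q = ρ γ q - ρ γ 0 := by
          have := hol_sub (hol := ρ) γ q 0
          rw [sub_zero] at this
          exact this.symm
        rw [h4, h2, h2]
        show q + π v - (0 + π v) = q
        abel
      have h4 := h2 0
      rw [h3, zero_add] at h4
      exact h4.symm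
    exact fun v hv => h1 hv
  have hlow : Module.finrank ℝ Q ≤ 2 → IsHomeomorph dev := fun h2 =>
    hup (Pool.Agent.P8H83.low_dim D' Subtype.val_injective h2)
  refine ⟨Q, i1, i2, i3, π, ρ, U, a1, a2, a4, ?_, ⟨act, D'⟩, a7, hker, hiff, hlow, fun h3 => ?_,
    fun h2 => hlow ?_⟩
  · ext p
    constructor
    · intro hp
      show π p ∈ U
      rw [a4]
      exact mem_image_of_mem _ hp
    · exact a5 p
  · by_cases hirr : Pool.Agent.P8H83.SIrr (Pool.Agent.P8H83.lh ρ.range.subtype)
    · exact Or.inr fun H hH W hW => hirr H hH W hW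
    · left
      apply hup
      rcases Pool.Agent.P8H83.out_red D' Subtype.val_injective h3 hirr with
        ⟨H, hH, W, hW2, hW⟩ | ⟨H, hH, hs⟩
      · exact Pool.Agent.N520.RO.plane_case U ρ.range Q Subtype.val ρ.range.subtype D'
          Subtype.val_injective H hH W hW2 hW
      · exact Pool.Agent.Y449.MS.Wrap.main Pool.Agent.Y449.MS.All.finv U ρ.range Q Subtype.val
          ρ.range.subtype D' Subtype.val_injective H hH hs
  · have h3 := LinearMap.finrank_range_add_finrank_ker (π : E →ₗ[ℝ] Q)
    have h4 : Module.finrank ℝ (LinearMap.range (π : E →ₗ[ℝ] Q)) = Module.finrank ℝ Q := by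
      rw [LinearMap.range_eq_top.2 a1, finrank_top]
    have h5 : Module.finrank ℝ (translationSpan hol) ≤
        Module.finrank ℝ (LinearMap.ker (π : E →ₗ[ℝ] Q)) :=
      Submodule.finrank_mono fun v hv => hker v hv
    omega

end Pool.Agent.Results.MP_df2bd8_gt.TranslationQuotient
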